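import Mathlib
import Pool.Agent.Q299.Enl

set_option autoImplicit false

namespace Pool.Agent.Results.MP_c54df4_lc.NoDivisorInMonad

open Filter Pool.Agent.Q299.MUlt Pool.Agent.Q299.Enl

/-- the primes `q_{k,i}` -/
noncomputable def c (k i : ℕ) : ℕ+ := pr (Nat.pair k i)

/-- the products -/
noncomputable def N (k : ℕ) : ℕ+ := ∏ i ∈ Finset.range (k + 1), pr (Nat.pair k i)

theorem c_inj (k i k' i' : ℕ) (h : c k i = c k' i') : k = k' ∧ i = i' :=
  Nat.pair_eq_pair.1 (pr_inj h)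

theorem dvd_N {k i : ℕ} (h : i ≤ k) : c k i ∣ N k :=
  Finset.dvd_prod_of_mem (fun i => pr (Nat.pair k i)) (Finset.mem_range.2 (by omega))

theorem dvd_N_iff {k k' i : ℕ} (h : c k' i ∣ N k) : k' = k := by
  have h1 : (pr (Nat.pair k' i) : ℕ) ∣ ∏ i ∈ Finset.range (k + 1), (pr (Nat.pair k i) : ℕ) := by
    have h2 := PNat.dvd_iff.1 h
    have h3 : ((N k : ℕ+) : ℕ) = ∏ i ∈ Finset.range (k + 1), (pr (Nat.pair k i) : ℕ) :=
      map_prod PNat.coeMonoidHom _ _
    rw [h3] at h2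
    exact h2
  rw [Prime.dvd_finsetProd_iff (pr_prime _).prime] at h1
  obtain ⟨j, -, hj⟩ := h1
  rw [Nat.prime_dvd_prime_iff_eq (pr_prime _) (pr_prime _)] at hj
  exact (Nat.pair_eq_pair.1 (pr_inj (PNat.eq hj))).1

/-- There are an enlargement, ultrafilters `F`, `G` with `F` dividing `G`, and an element `y` of the
monad of `G` which is not divisible by any element of the monad of `F`. -/
theorem result : ∃ (I : Type) (W : Ultrafilter I), Enlargement W ∧
    ∃ F G : Ultrafilter ℕ+, tdvd F G ∧ ∃ y : Star W, v y = G ∧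
      ∀ x : Star W, v x = F → ¬ sdvd x y := by
  obtain ⟨J, V, hV⟩ := exists_enlargement
  refine ⟨ℕ × J, tensor E1 V, enlargement_tensor E1 V hV, E.map (fun x => c x.1 x.2),
    E1.map N, ?_, ((fun x => N x.1 : ℕ × J → ℕ+) : Star (tensor E1 V)), ?_, ?_⟩
  · intro A hA
    have hA' : ∀ᶠ x in (E : Filter (ℕ × ℕ)), c x.1 x.2 ∈ A := hA
    change ∀ᶠ x in (E : Filter (ℕ × ℕ)), ∃ a ∈ A, a ∣ N x.1
    have h2 := E_le
    filter_upwards [hA', h2] with x hx1 hx2
    exact ⟨_, hx1, dvd_N hx2⟩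
  · apply Ultrafilter.coe_injective
    ext A
    change (∀ᶠ k in (E1 : Filter ℕ), ∀ᶠ j in (V : Filter J), N k ∈ A) ↔
      ∀ᶠ k in (E1 : Filter ℕ), N k ∈ A
    simp only [Filter.eventually_const]
  · intro x hx hxy
    induction x using Filter.Germ.inductionOn with
    | h f =>
    have h1 := sdvd_coe _ _ hxy
    refine main V c c_inj f hx ?_
    filter_upwards [h1] with x hx k i hki
    rw [hki] at hx
    exact dvd_N_iff hx

end Pool.Agent.Results.MP_c54df4_lc.NoDivisorInMonad
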